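import Pool.Agent.AbCubeCf22da.Defs

set_option autoImplicit false

namespace Pool.Agent.AbCubeCf22da

variable {A B C : Type}

@[simp] lemma ext_nil (f : A → List B) : ext f [] = [] := rfl

@[simp] lemma ext_cons (f : A → List B) (a : A) (u : List A) :
    ext f (a :: u) = f a ++ ext f u := by simp [ext]

@[simp] lemma ext_append (f : A → List B) (u v : List A) :
    ext f (u ++ v) = ext f u ++ ext f v := by simp [ext]

lemma ext_perm (f : A → List B) {u v : List A} (huv : u.Perm v) :
    (ext f u).Perm (ext f v) := huv.flatMap_right f

lemma iter_append (k : ℕ) (u v : List Letter) :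
    (ext h)^[k] (u ++ v) = (ext h)^[k] u ++ (ext h)^[k] v := by
  induction k generalizing u v with
  | zero => rfl
  | succ k ih => simp only [Function.iterate_succ, Function.comp_apply, ext_append, ih]

lemma iter_nil (k : ℕ) : (ext h)^[k] ([] : List Letter) = [] := by
  induction k with
  | zero => rfl
  | succ k ih => simp only [Function.iterate_succ, Function.comp_apply, ext_nil, ih]

/-- The letter images of `g ∘ h^k`. -/
def G (g : Letter → List B) (k : ℕ) (a : Letter) : List B := ext g ((ext h)^[k] [a])

lemma ext_iter (g : Letter → List B) (k : ℕ) (u : List Letter) :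
    ext g ((ext h)^[k] u) = ext (G g k) u := by
  induction u with
  | nil => simp [iter_nil]
  | cons a u ih =>
    have : a :: u = [a] ++ u := rfl
    rw [this, iter_append, ext_append, ih, ext_append]
    simp [G]

lemma G_succ (g : Letter → List B) (k : ℕ) (a : Letter) :
    G g (k + 1) a = ext (G g k) (h a) := by
  rw [G, Function.iterate_succ, Function.comp_apply, ext_iter]
  simp

lemma hPow_succ (n : ℕ) : hPow (n + 1) = hPow n ++ (ext h)^[n] [Letter.l3] := by
  have : ext h [Letter.l0] = [Letter.l0] ++ [Letter.l3] := rfl
  rw [hPow, Function.iterate_succ, Function.comp_apply, this, iter_append, hPow]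

lemma iter_ne_nil (k : ℕ) (u : List Letter) (hu : u ≠ []) : (ext h)^[k] u ≠ [] := by
  induction k generalizing u with
  | zero => exact hu
  | succ k ih =>
    rw [Function.iterate_succ, Function.comp_apply]
    apply ih
    cases u with
    | nil => exact absurd rfl hu
    | cons a u => cases a <;> simp [h]

lemma lt_length_hPow (n : ℕ) : n < (hPow n).length := by
  induction n with
  | zero => simp [hPow]
  | succ n ih =>
    rw [hPow_succ, List.length_append]
    have := List.length_pos_of_ne_nil (iter_ne_nil n [Letter.l3] (by simp))
    omega

lemma hPow_add (n d : ℕ) : ∃ t, hPow (n + d) = hPow n ++ t := by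
  induction d with
  | zero => exact ⟨[], by simp⟩
  | succ d ih =>
    obtain ⟨t, ht⟩ := ih
    exact ⟨t ++ (ext h)^[n + d] [Letter.l3], by rw [← add_assoc, hPow_succ, ht, List.append_assoc]⟩

lemma hPow_getElem (n i : ℕ) (hi : i < (hPow n).length) : (hPow n)[i] = hInf i := by
  have h1 := lt_length_hPow i
  rw [hInf, List.getD_eq_getElem _ _ h1]
  obtain ⟨s, hs⟩ := hPow_add n i
  obtain ⟨t, ht⟩ := hPow_add i n
  rw [add_comm i n] at ht
  have e1 : (hPow (n + i))[i]? = some (hPow n)[i] := by
    rw [hs, List.getElem?_append_left hi, List.getElem?_eq_getElem hi]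
  have e2 : (hPow (n + i))[i]? = some (hPow i)[i] := by
    rw [ht, List.getElem?_append_left h1, List.getElem?_eq_getElem h1]
  rw [e1] at e2
  exact Option.some.inj e2

lemma initial_length (x : ℕ → A) (n : ℕ) : (initial x n).length = n := by simp [initial]

/-- `h^n(0)` is an initial segment of `h^∞(0)`. -/
lemma initial_hInf (n : ℕ) : initial hInf (hPow n).length = hPow n := by
  apply List.ext_getElem
  · simp [initial]
  · intro i h1 h2
    rw [hPow_getElem n i h2]
    simp [initial]

/-- `h^∞(0)` is a fixed point of `h`. -/
lemma isImage_hInf : IsImage h hInf hInf := by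
  have key : ∀ n, ext h (initial hInf n) = initial hInf (ext h (initial hInf n)).length := by
    intro n
    obtain ⟨t, ht⟩ : ∃ t, hPow n = initial hInf n ++ t := by
      refine ⟨(hPow n).drop n, ?_⟩
      conv_lhs => rw [← List.take_append_drop n (hPow n)]
      congr 1
      rw [← initial_hInf n]
      simp only [initial, ← List.map_take, List.take_range]
      rw [min_eq_left (lt_length_hPow n).le]
    have h1 : hPow (n + 1) = ext h (initial hInf n) ++ ext h t := by
      rw [← ext_append, ← ht, hPow, Function.iterate_succ_apply', hPow]
    have h2 := initial_hInf (n + 1)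
    apply List.ext_getElem
    · simp [initial]
    · intro i hi _
      have h3 : i < (hPow (n + 1)).length := by rw [h1, List.length_append]; omega
      have h4 := hPow_getElem (n + 1) i h3
      have h5 : (hPow (n + 1))[i]? = some (ext h (initial hInf n))[i] := by
        rw [h1, List.getElem?_append_left hi, List.getElem?_eq_getElem hi]
      rw [List.getElem?_eq_getElem h3] at h5
      rw [← Option.some.inj h5, h4]
      simp [initial]
  refine ⟨key, fun m => ⟨(hPow m).length, ?_⟩⟩
  rw [initial_hInf]
  have : ext h (hPow m) = hPow (m + 1) := by
    rw [hPow, hPow, Function.iterate_succ_apply']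
  rw [this]
  have := lt_length_hPow (m + 1)
  omega

/-- The finite word `z` is an initial segment of the infinite word `y`. -/
lemma factor_of_initial {y : ℕ → B} {z u v : List B} (n : ℕ) (hz : z = initial y z.length)
    (huv : z = u ++ v ++ (z.drop n)) : IsFactor v y := by
  refine ⟨u.length, ?_⟩
  apply List.ext_getElem
  · simp
  · intro i h1 h2
    have hl : u.length + i < z.length := by
      rw [huv]; simp only [List.length_append]; omega
    have e1 : z[u.length + i]? = some v[i] := by
      conv_lhs => rw [huv]
      rw [List.append_assoc, List.getElem?_append_right (by omega)]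
      rw [List.getElem?_append_left (by omega)]
      rw [List.getElem?_eq_getElem (by omega)]
      simp
    have e2 : z[u.length + i]? = some (y (u.length + i)) := by
      conv_lhs => rw [hz]
      simp [initial, hl]
    rw [e1] at e2
    simpa using Option.some.inj e2

lemma factor_of_eq {y : ℕ → B} {z u v t : List B} (hz : z = initial y z.length)
    (huv : z = u ++ v ++ t) : IsFactor v y := by
  apply factor_of_initial (u.length + v.length) hz (u := u)
  conv_lhs => rw [huv]
  congr 1
  rw [huv]
  simp

end Pool.Agent.AbCubeCf22da
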