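import Pool.Agent.AbCubeCf22da.Basic

set_option autoImplicit false

namespace Pool.Agent.AbCubeCf22da

/-- Discrete intermediate value theorem. -/
lemma exists_zero (F : ℕ → ℤ) (n : ℕ) (hstep : ∀ j < n, |F (j + 1) - F j| ≤ 1)
    (h0 : F 0 ≤ 0) (hn : 0 ≤ F n) : ∃ j ≤ n, F j = 0 := by
  induction n with
  | zero => exact ⟨0, le_rfl, le_antisymm h0 hn⟩
  | succ n ih =>
    by_cases hz : 0 ≤ F n
    · obtain ⟨j, hj, hj0⟩ := ih (fun j hj => hstep j (by omega)) hz
      exact ⟨j, by omega, hj0⟩
    · have h1 := hstep n (by omega)
      rw [abs_le] at h1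
      exact ⟨n + 1, le_rfl, by omega⟩

lemma exists_zero' (F : ℕ → ℤ) (n : ℕ) (hstep : ∀ j < n, |F (j + 1) - F j| ≤ 1)
    (hn : F n = - F 0) : ∃ j ≤ n, F j = 0 := by
  rcases le_total (F 0) 0 with h0 | h0
  · exact exists_zero F n hstep h0 (by omega)
  · obtain ⟨j, hj, hj0⟩ := exists_zero (fun j => - F j) n
      (fun j hj => by
        have := hstep j hj
        rw [abs_le] at this ⊢
        constructor <;> omega) (by simpa using h0) (by show 0 ≤ - F n; omega)
    exact ⟨j, hj, by simpa using hj0⟩

/-- Number of letters `1` among the first `j` letters. -/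
def ones (u : List (Fin 2)) (j : ℕ) : ℕ := (u.take j).count 1

lemma ones_zero (u : List (Fin 2)) : ones u 0 = 0 := by simp [ones]

lemma ones_succ (u : List (Fin 2)) (j : ℕ) : ones u j ≤ ones u (j + 1) ∧
    ones u (j + 1) ≤ ones u j + 1 := by
  induction u generalizing j with
  | nil => simp [ones]
  | cons a u ih =>
    cases j with
    | zero =>
      simp only [ones, List.take_zero, List.count_nil, zero_add, List.take_succ_cons,
        List.count_cons]
      constructor
      · omega
      · split <;> simp
    | succ j =>
      have := ih j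
      simp only [ones, List.take_succ_cons, List.count_cons] at this ⊢
      omega

/-- The crossing lemma (a discrete form of the universal chord theorem). -/
lemma crossing (g1 g3 : List (Fin 2)) (m : ℕ) (hm : g1.length = g3.length + 2 * m)
    (c : ℤ) (hc : (g1.count 1 : ℤ) = g3.count 1 + 2 * c) :
    (∃ s t, s ≤ g3.length ∧ t ≤ g1.length ∧ 2 * s + g1.length = g3.length + 2 * t ∧
      2 * (g3.take s).count 1 + g1.count 1 = g3.count 1 + 2 * (g1.take t).count 1) ∨
    (∃ s t, s ≤ g1.length ∧ t ≤ g1.length ∧ g1.length + g3.length + 2 * s = 2 * t ∧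
      g1.count 1 + g3.count 1 + 2 * (g1.take s).count 1 = 2 * (g1.take t).count 1) := by
  set F : ℕ → ℤ := fun j => c + ones (g3 ++ g1) j - ones g1 (m + j) with hF
  have hstep : ∀ j < m + g3.length, |F (j + 1) - F j| ≤ 1 := by
    intro j _
    have h1 := ones_succ (g3 ++ g1) j
    have h2 := ones_succ g1 (m + j)
    rw [abs_le]
    simp only [hF]
    rw [← add_assoc]
    constructor <;> omega
  have hend : F (m + g3.length) = - F 0 := by
    simp only [hF, ones_zero]
    have e1 : ones (g3 ++ g1) (m + g3.length) = g3.count 1 + ones g1 m := by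
      simp only [ones]
      rw [List.take_append, List.take_of_length_le (by omega), List.count_append]
      congr 3
      omega
    have e2 : ones g1 (m + (m + g3.length)) = g1.count 1 := by
      simp only [ones]
      rw [List.take_of_length_le (by omega)]
    rw [e1, e2]
    push_cast
    simp only [add_zero]
    omega
  obtain ⟨j, hj, hj0⟩ := exists_zero' F _ hstep hend
  simp only [hF] at hj0
  rcases le_total j g3.length with hj3 | hj3
  · left
    refine ⟨j, m + j, hj3, by omega, by omega, ?_⟩
    have e1 : ones (g3 ++ g1) j = (g3.take j).count 1 := by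
      simp only [ones]
      rw [List.take_append_of_le_length hj3]
    rw [e1, ones] at hj0
    omega
  · right
    refine ⟨j - g3.length, m + j, by omega, by omega, by omega, ?_⟩
    have e1 : ones (g3 ++ g1) j = g3.count 1 + (g1.take (j - g3.length)).count 1 := by
      simp only [ones]
      rw [List.take_append, List.take_of_length_le hj3, List.count_append]
    rw [e1, ones] at hj0
    omega

lemma count_zero (u : List (Fin 2)) : u.count 0 + u.count 1 = u.length := by
  induction u with
  | nil => rfl
  | cons a u ih =>
    simp only [List.count_cons, List.length_cons]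
    fin_cases a <;> simp <;> omega

/-- Binary words with the same length and the same number of `1`s are permutations of each
other. -/
lemma perm_of_counts {u v : List (Fin 2)} (h1 : u.length = v.length)
    (h2 : u.count 1 = v.count 1) : u.Perm v := by
  rw [List.perm_iff_count]
  intro b
  have := count_zero u
  have := count_zero v
  fin_cases b
  · simp only [Fin.zero_eta]; omega
  · simpa using h2

end Pool.Agent.AbCubeCf22da
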