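import Mathlib

/-!
Words, morphisms, the infinite fixed point of `h`, morphic images and abelian cubes.
-/

set_option autoImplicit false

namespace Pool.Agent.AbCubeCf22da

/-- The alphabet `{0, 1, 3, 4}`. -/
inductive Letter
  | l0 | l1 | l3 | l4
  deriving DecidableEq

/-- The morphism of free monoids `A* → B*` with letter images `f`. -/
def ext {A B : Type} (f : A → List B) (u : List A) : List B := u.flatMap f

/-- The letter images of the morphism `h`: `h(0) = 03`, `h(1) = 43`, `h(3) = 1`, `h(4) = 01`. -/
def h : Letter → List Letter
  | .l0 => [.l0, .l3]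
  | .l1 => [.l4, .l3]
  | .l3 => [.l1]
  | .l4 => [.l0, .l1]

/-- The finite word `h^n(0)`. -/
def hPow (n : ℕ) : List Letter := (ext h)^[n] [Letter.l0]

/-- The infinite word `h^∞(0)`: its letter number `i` is the letter number `i` of `h^i(0)`
(a word of length greater than `i`). -/
def hInf (i : ℕ) : Letter := (hPow i).getD i Letter.l0

/-- The word formed by the first `n` letters of the infinite word `x`. -/
def initial {A : Type} (x : ℕ → A) (n : ℕ) : List A := (List.range n).map x

/-- `y` is the infinite word `g(x)`: every word `g(x₀ ⋯ x_{n-1})` is an initial segment of `y`,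
and these words are arbitrarily long. -/
def IsImage {A B : Type} (g : A → List B) (x : ℕ → A) (y : ℕ → B) : Prop :=
  (∀ n : ℕ, ext g (initial x n) = initial y (ext g (initial x n)).length) ∧
    ∀ m : ℕ, ∃ n : ℕ, m ≤ (ext g (initial x n)).length

/-- The finite word `z` is a factor of the infinite word `y`. -/
def IsFactor {B : Type} (z : List B) (y : ℕ → B) : Prop :=
  ∃ i : ℕ, z = (List.range z.length).map (fun j => y (i + j))

/-- `u v w` is an abelian cube: `u` is nonempty and `u`, `v`, `w` are permutations of each
other. -/
def IsAbelianCube {B : Type} (u v w : List B) : Prop :=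
  u ≠ [] ∧ u.Perm v ∧ v.Perm w

/-- The infinite word `y` has no long abelian cubes: for some `p`, no factor of `y` is an abelian
cube of period at least `p`. -/
def NoLongAbelianCubes {B : Type} (y : ℕ → B) : Prop :=
  ∃ p : ℕ, ∀ u v w : List B, IsAbelianCube u v w → IsFactor (u ++ v ++ w) y → u.length < p

end Pool.Agent.AbCubeCf22da
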