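import Pool.Agent.AbCubeCf22da.Rec

set_option autoImplicit false

namespace Pool.Agent.AbCubeCf22da

open Letter

/-- The letters number `2, …, 17` of `h^∞(0)`. -/
def M1 : List Letter := [l1, l4, l3, l0, l1, l1, l0, l3, l4, l3, l4, l3, l0, l3, l1, l0]
/-- The letters number `19, …, 34` of `h^∞(0)`. -/
def M2 : List Letter := [l1, l0, l1, l1, l0, l3, l1, l4, l3, l0, l3, l4, l3, l4, l3, l0]
/-- The letters number `36, …, 51` of `h^∞(0)`. -/
def M3 : List Letter := [l4, l3, l4, l3, l0, l3, l1, l4, l3, l0, l1, l1, l0, l3, l1, l0]

lemma perm12 : M1.Perm M2 := by decide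
lemma perm13 : M1.Perm M3 := by decide

lemma hPow8 : hPow 8 = [l0] ++ [l3] ++ M1 ++ [l1] ++ M2 ++ [l3] ++ M3 ++ [l1] ++
    ([l1] ++ [l0] ++ [l1] ++ [l1, l0, l3] ++ [l1] ++ [l0] ++ [l1] ++ [l1, l0, l1, l1]) := by
  decide +kernel

lemma shape {a m1 m2 m3 R T1 D1 T3 D3 g1 g3 z : List (Fin 2)} (h1 : g1 = T1 ++ D1)
    (h3 : g3 = T3 ++ D3)
    (hz : z = a ++ g3 ++ m1 ++ g1 ++ m2 ++ g3 ++ m3 ++ g1 ++ R) :
    z = (a ++ T3) ++ ((D3 ++ m1 ++ T1) ++ (D1 ++ m2 ++ T3) ++ (D3 ++ m3 ++ T1)) ++ (D1 ++ R) := by
  subst h1
  subst h3
  rw [hz]
  simp only [List.append_assoc]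

lemma count_drop (u : List (Fin 2)) (s : ℕ) :
    (u.take s).count 1 + (u.drop s).count 1 = u.count 1 := by
  rw [← List.count_append, List.take_append_drop]

/-- Every infinite binary image of `h^∞(0)` contains abelian cubes of arbitrarily long period. -/
theorem exists_cube (g : Letter → List (Fin 2)) (y : ℕ → Fin 2) (hy : IsImage g hInf y) (p : ℕ) :
    ∃ u v w : List (Fin 2), IsAbelianCube u v w ∧ IsFactor (u ++ v ++ w) y ∧ p ≤ u.length := by
  have hL := rec_length g
  have hC := rec_count g
  have hpos : 1 ≤ (G g 0 l0).length + (G g 0 l1).length + (G g 0 l3).length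
      + (G g 0 l4).length := by
    by_contra hcon
    have hnil : ∀ a, g a = [] := by
      intro a
      have : (G g 0 a).length = (g a).length := by simp [G]
      apply List.eq_nil_of_length_eq_zero
      cases a <;> omega
    obtain ⟨n, hn⟩ := hy.2 1
    have : ext g (initial hInf n) = [] := by
      rw [ext, List.flatMap_eq_nil_iff]
      intro a _
      exact hnil a
    rw [this] at hn
    simp at hn
  obtain ⟨K, hK⟩ := growth hL hpos (p + 1)
  obtain ⟨k, hk, hp1, hp2⟩ := exists_parity hL hC (max K 15)
  have hk1 := hK k (le_trans (le_max_left _ _) hk)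
  have hk2 := domination hL k (le_trans (le_max_right _ _) hk)
  beta_reduce at hp1 hp2 hk1 hk2
  -- the initial segment
  have hz : ext (G g k) (hPow 8) = initial y (ext (G g k) (hPow 8)).length := by
    have := hy.1 (hPow (k + 8)).length
    rw [initial_hInf] at this
    rwa [show hPow (k + 8) = (ext h)^[k] (hPow 8) by
      rw [hPow, Function.iterate_add_apply, hPow], ext_iter] at this
  set g1 := G g k l1 with hg1
  set g3 := G g k l3 with hg3
  have hs1 : ext (G g k) [l1] = g1 := by simp [hg1]
  have hs3 : ext (G g k) [l3] = g3 := by simp [hg3]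
  obtain ⟨m, hm⟩ : ∃ m, g1.length = g3.length + 2 * m := ⟨(g1.length - g3.length) / 2, by omega⟩
  obtain ⟨c, hc⟩ : ∃ c : ℤ, (g1.count 1 : ℤ) = g3.count 1 + 2 * c :=
    ⟨((g1.count 1 : ℤ) - g3.count 1) / 2, by omega⟩
  rcases crossing g1 g3 m hm c hc with ⟨s, t, hs, ht, e1, e2⟩ | ⟨s, t, hs, ht, e1, e2⟩
  · -- first case
    have hz1 := shape (a := ext (G g k) [l0]) (m1 := ext (G g k) M1) (m2 := ext (G g k) M2)
      (m3 := ext (G g k) M3) (R := ext (G g k) ([l1] ++ [l0] ++ [l1] ++ [l1, l0, l3] ++ [l1] ++
        [l0] ++ [l1] ++ [l1, l0, l1, l1]))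
      (List.take_append_drop t g1).symm (List.take_append_drop s g3).symm
      (z := ext (G g k) (hPow 8)) (by
        rw [hPow8, ext_append, ext_append, ext_append, ext_append, ext_append, ext_append,
          ext_append, ext_append, hs1, hs3])
    refine ⟨_, _, _, ?_, factor_of_eq hz hz1, ?_⟩
    · have l12 := (ext_perm (G g k) perm12).length_eq
      have c12 := (ext_perm (G g k) perm12).count_eq 1
      have d1 := count_drop g1 t
      have d3 := count_drop g3 s
      have hlen : g1.length ≤ (ext (G g k) M1).length := by
        rw [hg1]
        simp only [M1, ext_cons, List.length_append]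
        omega
      refine ⟨?_, ?_, ?_⟩
      · intro hnil
        have := congrArg List.length hnil
        simp only [List.length_append, List.length_nil] at this
        omega
      · apply perm_of_counts
        · simp only [List.length_append, List.length_take, List.length_drop]
          omega
        · simp only [List.count_append]
          omega
      · apply List.Perm.symm
        refine List.Perm.trans ?_ (?_ : (List.drop s g3 ++ ext (G g k) M1 ++ List.take t g1).Perm _)
        · exact (((ext_perm (G g k) perm13).symm.append_left _).append_right _)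
        · apply perm_of_counts
          · simp only [List.length_append, List.length_take, List.length_drop]
            omega
          · simp only [List.count_append]
            omega
    · have hlen : g1.length ≤ (ext (G g k) M1).length := by
        rw [hg1]
        simp only [M1, ext_cons, List.length_append]
        omega
      simp only [List.length_append]
      omega
  · -- second case
    have hz1 := shape (a := ext (G g k) ([l0] ++ [l3] ++ M1 ++ [l1] ++ M2 ++ [l3] ++ M3 ++ [l1]))
      (m1 := ext (G g k) [l0]) (m2 := ext (G g k) [l1, l0, l3])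
      (m3 := ext (G g k) [l0]) (R := ext (G g k) [l1, l0, l1, l1])
      (List.take_append_drop t g1).symm (List.take_append_drop s g1).symm
      (z := ext (G g k) (hPow 8)) (by
        rw [hPow8]
        simp only [ext_append, hs1, hs3, List.append_assoc])
    refine ⟨_, _, _, ?_, factor_of_eq hz hz1, ?_⟩
    · have d1 := count_drop g1 t
      have d3 := count_drop g1 s
      have h103 : (ext (G g k) [l1, l0, l3]).length = g1.length + (ext (G g k) [l0]).length
          + g3.length := by
        simp [hg1, hg3]
        omega
      have c103 : (ext (G g k) [l1, l0, l3]).count 1 = g1.count 1 + (ext (G g k) [l0]).count 1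
          + g3.count 1 := by
        simp [hg1, hg3]
        omega
      have key : (List.drop s g1 ++ ext (G g k) [l0] ++ List.take t g1).Perm
          (List.drop t g1 ++ ext (G g k) [l1, l0, l3] ++ List.take s g1) := by
        apply perm_of_counts
        · simp only [List.length_append, List.length_take, List.length_drop]
          omega
        · simp only [List.count_append]
          omega
      refine ⟨?_, key, key.symm⟩
      intro hnil
      have := congrArg List.length hnil
      simp only [List.length_append, List.length_nil, List.length_take, List.length_drop] at this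
      omega
    · simp only [List.length_append, List.length_take, List.length_drop]
      omega

end Pool.Agent.AbCubeCf22da
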