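import Pool.Agent.AbCubeCf22da.Cross

set_option autoImplicit false

namespace Pool.Agent.AbCubeCf22da

/-- The recursion satisfied by additive functions of the words `g (h^k (a))`. -/
structure Rec (f : ℕ → Letter → ℕ) : Prop where
  s0 : ∀ k, f (k + 1) .l0 = f k .l0 + f k .l3
  s1 : ∀ k, f (k + 1) .l1 = f k .l4 + f k .l3
  s3 : ∀ k, f (k + 1) .l3 = f k .l1
  s4 : ∀ k, f (k + 1) .l4 = f k .l0 + f k .l1

lemma rec_length (g : Letter → List (Fin 2)) : Rec (fun k a => (G g k a).length) := by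
  constructor <;> intro k <;> simp [G_succ, h]

lemma rec_count (g : Letter → List (Fin 2)) : Rec (fun k a => (G g k a).count 1) := by
  constructor <;> intro k <;> simp [G_succ, h]

/-- One step of the recursion modulo two. -/
def step (x : Bool × Bool × Bool × Bool) : Bool × Bool × Bool × Bool :=
  (xor x.1 x.2.2.1, xor x.2.2.2 x.2.2.1, x.2.1, xor x.1 x.2.1)

lemma parity_table : ∀ x y : Bool × Bool × Bool × Bool, ∃ j < 15,
    (step^[j] x).2.1 = (step^[j] x).2.2.1 ∧ (step^[j] y).2.1 = (step^[j] y).2.2.1 := by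
  decide +kernel

lemma parity_iter {f : ℕ → Letter → ℕ} (hf : Rec f) (k j : ℕ) :
    step^[j] ((f k .l0).bodd, (f k .l1).bodd, (f k .l3).bodd, (f k .l4).bodd) =
      ((f (k + j) .l0).bodd, (f (k + j) .l1).bodd, (f (k + j) .l3).bodd, (f (k + j) .l4).bodd) := by
  induction j with
  | zero => rfl
  | succ j ih =>
    rw [Function.iterate_succ_apply', ih]
    simp only [step, ← add_assoc, hf.s0, hf.s1, hf.s3, hf.s4, Nat.bodd_add]

lemma exists_parity {f f' : ℕ → Letter → ℕ} (hf : Rec f) (hf' : Rec f') (k : ℕ) :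
    ∃ n, k ≤ n ∧ f n .l1 % 2 = f n .l3 % 2 ∧ f' n .l1 % 2 = f' n .l3 % 2 := by
  obtain ⟨j, _, h1, h2⟩ := parity_table
    ((f k .l0).bodd, (f k .l1).bodd, (f k .l3).bodd, (f k .l4).bodd)
    ((f' k .l0).bodd, (f' k .l1).bodd, (f' k .l3).bodd, (f' k .l4).bodd)
  rw [parity_iter hf] at h1
  rw [parity_iter hf'] at h2
  refine ⟨k + j, by omega, ?_, ?_⟩
  · rw [Nat.mod_two_of_bodd, Nat.mod_two_of_bodd]
    simp only at h1
    rw [h1]
  · rw [Nat.mod_two_of_bodd, Nat.mod_two_of_bodd]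
    simp only at h2
    rw [h2]

lemma domination {f : ℕ → Letter → ℕ} (hf : Rec f) (k : ℕ) (hk : 15 ≤ k) :
    f k .l3 ≤ f k .l1 := by
  obtain ⟨j, rfl⟩ : ∃ j, k = j + 15 := ⟨k - 15, by omega⟩
  have key : f (j + 15) .l1 = f (j + 15) .l3 + 210 * f j .l0 + 3 * f j .l1 + 683 * f j .l3
      + 442 * f j .l4 := by
    simp only [hf.s0, hf.s1, hf.s3, hf.s4]
    ring
  omega

lemma sum_mono {f : ℕ → Letter → ℕ} (hf : Rec f) (k : ℕ) :
    f k .l0 + f k .l1 + f k .l3 + f k .l4 ≤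
      f (k + 1) .l0 + f (k + 1) .l1 + f (k + 1) .l3 + f (k + 1) .l4 := by
  rw [hf.s0, hf.s1, hf.s3, hf.s4]
  omega

lemma five {f : ℕ → Letter → ℕ} (hf : Rec f) (j : ℕ) :
    f j .l0 + f j .l1 + f j .l3 + f j .l4 ≤ f (j + 5) .l1 ∧
    f j .l0 + f j .l1 + f j .l3 + f j .l4 ≤ f (j + 5) .l0 := by
  simp only [hf.s0, hf.s1, hf.s3, hf.s4]
  omega

lemma growth {f : ℕ → Letter → ℕ} (hf : Rec f)
    (hpos : 1 ≤ f 0 .l0 + f 0 .l1 + f 0 .l3 + f 0 .l4) (p : ℕ) :
    ∃ K, ∀ k, K ≤ k → p ≤ f k .l1 := by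
  have hS : ∀ p, ∃ K, ∀ k, K ≤ k → p ≤ f k .l0 + f k .l1 + f k .l3 + f k .l4 := by
    intro p
    induction p with
    | zero => exact ⟨0, fun _ _ => Nat.zero_le _⟩
    | succ p ih =>
      obtain ⟨K, hK⟩ := ih
      have hmono : ∀ k, 1 ≤ f k .l0 + f k .l1 + f k .l3 + f k .l4 := by
        intro k
        induction k with
        | zero => exact hpos
        | succ k ih => exact le_trans ih (sum_mono hf k)
      refine ⟨K + 5, fun k hk => ?_⟩
      obtain ⟨j, rfl⟩ : ∃ j, k = j + 5 := ⟨k - 5, by omega⟩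
      have h1 := hK j (by omega)
      have h2 := five hf j
      have h3 := hmono j
      omega
  obtain ⟨K, hK⟩ := hS p
  refine ⟨K + 5, fun k hk => ?_⟩
  obtain ⟨j, rfl⟩ : ∃ j, k = j + 5 := ⟨k - 5, by omega⟩
  have h1 := hK j (by omega)
  have h2 := five hf j
  omega

end Pool.Agent.AbCubeCf22da
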